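import Mathlib

/-!
Local loop lemma for odd cycles: an idempotent operation `f` compatible with a symmetric
relation `R` such that the neighbourhood of `z` absorbs `z`, where `z` lies on an odd closed walk.
-/

namespace Pool.Agent.P8H60.LocalLoop

open Filter

universe u

variable {A : Type u} {n : ℕ}

/-- `W R k x y`: there is a walk of length exactly `k` from `x` to `y` in `R`. -/
def W (R : A → A → Prop) (k : ℕ) (x y : A) : Prop :=
  ∃ p : ℕ → A, p 0 = x ∧ p k = y ∧ ∀ t, t < k → R (p t) (p (t + 1))

theorem W_zero (R : A → A → Prop) (x : A) : W R 0 x x :=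
  ⟨fun _ => x, rfl, rfl, fun t ht => absurd ht (Nat.not_lt_zero t)⟩

theorem W_one {R : A → A → Prop} {x y : A} (h : R x y) : W R 1 x y := by
  refine ⟨fun t => if t = 0 then x else y, by simp, by simp, ?_⟩
  intro t ht
  have : t = 0 := by omega
  subst this
  simpa using h

theorem W_one_iff {R : A → A → Prop} {x y : A} : W R 1 x y ↔ R x y := by
  constructor
  · rintro ⟨p, h0, h1, h⟩
    have := h 0 (by omega)
    rw [h0] at this
    simpa [h1] using this
  · exact W_one

theorem W_trans {R : A → A → Prop} {x y z : A} {k m : ℕ} (h1 : W R k x y) (h2 : W R m y z) :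
    W R (k + m) x z := by
  obtain ⟨p, p0, pk, hp⟩ := h1
  obtain ⟨q, q0, qm, hq⟩ := h2
  refine ⟨fun t => if t ≤ k then p t else q (t - k), by simp [p0], ?_, ?_⟩
  · by_cases hm : m = 0
    · subst hm; simp [pk, ← qm, q0]
    · have : ¬ (k + m ≤ k) := by omega
      simp only [this, if_false]
      rw [show k + m - k = m by omega, qm]
  · intro t ht
    by_cases h1 : t < k
    · simp only [show t ≤ k by omega, show t + 1 ≤ k by omega, if_true]
      exact hp t h1
    · by_cases h2 : t = k
      · subst h2
        simp only [le_refl, if_true, show ¬ (t + 1 ≤ t) by omega, if_false]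
        rw [pk, ← q0, show t + 1 - t = 0 + 1 by omega]
        exact hq 0 (by omega)
      · simp only [show ¬ t ≤ k by omega, show ¬ (t + 1 ≤ k) by omega, if_false]
        rw [show t + 1 - k = (t - k) + 1 by omega]
        exact hq (t - k) (by omega)

theorem W_symm {R : A → A → Prop} (hs : ∀ x y, R x y → R y x) {x y : A} {k : ℕ}
    (h : W R k x y) : W R k y x := by
  obtain ⟨p, p0, pk, hp⟩ := h
  refine ⟨fun t => p (k - t), by simpa using pk, by simpa using p0, ?_⟩
  intro t ht
  have := hp (k - (t + 1)) (by omega)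
  rw [show k - (t + 1) + 1 = k - t by omega] at this
  exact hs _ _ this

theorem W_compat {R : A → A → Prop} {f : (Fin n → A) → A}
    (hc : ∀ x y : Fin n → A, (∀ i, R (x i) (y i)) → R (f x) (f y))
    {k : ℕ} {x y : Fin n → A} (h : ∀ i, W R k (x i) (y i)) : W R k (f x) (f y) := by
  choose p p0 pk hp using h
  refine ⟨fun t => f (fun i => p i t), ?_, ?_, ?_⟩
  · simp only [p0]
  · simp only [pk]
  · intro t ht
    exact hc _ _ (fun i => hp i t ht)

theorem W_add_two {R : A → A → Prop} (hs : ∀ x y, R x y → R y x) {x y z : A} {k : ℕ}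
    (hz : R x z) (h : W R k x y) : W R (k + 2) x y := by
  have h2 : W R 2 x x := W_trans (W_one hz) (W_one (hs _ _ hz))
  have := W_trans h2 h
  rwa [Nat.add_comm] at this

theorem W_add_even {R : A → A → Prop} (hs : ∀ x y, R x y → R y x) {x y z : A} {k : ℕ}
    (hz : R x z) (h : W R k x y) (m : ℕ) : W R (k + 2 * m) x y := by
  induction m with
  | zero => simpa using h
  | succ m ih =>
    have := W_add_two hs hz ih
    rwa [show k + 2 * (m + 1) = k + 2 * m + 2 by ring]

/-- A closed walk of odd length and one edge give closed walks of all large lengths. -/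
theorem W_eventually {R : A → A → Prop} (hs : ∀ x y, R x y → R y x) {x z : A} {l : ℕ}
    (hl : Odd l) (hz : R x z) (h : W R l x x) : ∀ᶠ k in atTop, W R k x x := by
  rw [eventually_atTop]
  refine ⟨l, fun k hk => ?_⟩
  rcases Nat.even_or_odd k with he | ho
  · obtain ⟨m, rfl⟩ := he
    have := W_add_even hs hz (W_zero R x) m
    rwa [show 0 + 2 * m = m + m by ring] at this
  · obtain ⟨a, rfl⟩ := hl
    obtain ⟨b, rfl⟩ := ho
    have := W_add_even hs hz h (b - a)
    rwa [show 2 * a + 1 + 2 * (b - a) = 2 * b + 1 by omega] at this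

/-- `Psi f g w`: the vector whose `k`-th entry is `f` of `g` with the `k`-th entry replaced by
`w k`. -/
def Psi (f : (Fin n → A) → A) (g w : Fin n → A) : Fin n → A :=
  fun k => f (Function.update g k (w k))

theorem Psi_compat {R : A → A → Prop} {f : (Fin n → A) → A}
    (hc : ∀ x y : Fin n → A, (∀ i, R (x i) (y i)) → R (f x) (f y))
    {g g' w w' : Fin n → A} (hg : ∀ i, R (g i) (g' i)) (hw : ∀ i, R (w i) (w' i)) (k : Fin n) :
    R (Psi f g w k) (Psi f g' w' k) := by
  apply hc
  intro i
  by_cases h : i = k
  · subst h; simpa using hw i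
  · simpa [Function.update_of_ne h] using hg i

theorem Psi_mem {f : (Fin n → A) → A} {Q : A → Prop} (hQ : ∀ x, (∀ i, Q (x i)) → Q (f x))
    {g w : Fin n → A} (hg : ∀ i, Q (g i)) (hw : ∀ i, Q (w i)) (k : Fin n) :
    Q (Psi f g w k) := by
  apply hQ
  intro i
  by_cases h : i = k
  · subst h; simpa using hw i
  · simpa [Function.update_of_ne h] using hg i

/-- If `g ~ r`, `w ~ r` for `r = Psi f g w` then `f r` is a loop. -/
theorem loop_of {R : A → A → Prop} {f : (Fin n → A) → A}
    (hid : ∀ a, f (fun _ => a) = a)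
    (hc : ∀ x y : Fin n → A, (∀ i, R (x i) (y i)) → R (f x) (f y))
    {g w : Fin n → A} (hg : ∀ i, R (g i) (Psi f g w i)) (hw : ∀ i, R (w i) (Psi f g w i)) :
    R (f (Psi f g w)) (f (Psi f g w)) := by
  have key : ∀ k, R (Psi f g w k) (f (Psi f g w)) := by
    intro k
    change R (f (Function.update g k (w k))) _
    apply hc
    intro i
    by_cases h : i = k
    · subst h; simpa using hw i
    · simpa [Function.update_of_ne h] using hg i
  have := hc _ (fun _ => f (Psi f g w)) key
  rwa [hid] at this

/-- Existence of a self-dominated vector relative to a set `D` and a point `p` such that every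
element of `D` has a common neighbour with `p` inside `D`. -/
theorem exists_fix_aux {R : A → A → Prop} (hs : ∀ x y, R x y → R y x) {f : (Fin n → A) → A}
    (hid : ∀ a, f (fun _ => a) = a)
    (hc : ∀ x y : Fin n → A, (∀ i, R (x i) (y i)) → R (f x) (f y))
    (D : A → Prop) (hD : ∀ x, (∀ i, D (x i)) → D (f x)) (p : A) (hp : D p)
    (hcom : ∀ v, D v → ∃ w, D w ∧ R p w ∧ R w v) (K : Finset (Fin n)) :
    ∀ q : Fin n → A, (∀ i, D (q i)) → ∃ X a : Fin n → A, (∀ i, D (X i)) ∧ (∀ i, D (a i)) ∧
      ∀ k ∈ K, R (X k) (f (fun i => if i = k then a k else if i ∈ K then X i else q i)) := by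
  classical
  induction K using Finset.induction_on with
  | empty =>
    intro q hq
    exact ⟨q, q, hq, hq, by simp⟩
  | insert k0 K hk0 ih =>
    intro q hq
    have hy : ∀ i, ∃ y, D y ∧ R y (q i) := fun i => by
      obtain ⟨w, h1, _, h3⟩ := hcom _ (hq i)
      exact ⟨w, h1, h3⟩
    choose y hyD hyR using hy
    obtain ⟨Z, a', hZ, ha', hfix⟩ := ih (fun i => if i = k0 then p else y i) (by
      intro i
      by_cases h : i = k0
      · simpa [h] using hp
      · simpa [h] using hyD i)
    -- the new entries on `K`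
    let X' : Fin n → A := fun k =>
      f (fun i => if i = k then a' k else if i ∈ K then Z i else if i = k0 then p else y i)
    have hX' : ∀ k, D (X' k) := by
      intro k
      apply hD
      intro i
      by_cases h1 : i = k
      · simpa [h1] using ha' k
      · by_cases h2 : i ∈ K
        · simpa [h1, h2] using hZ i
        · by_cases h3 : i = k0
          · rw [if_neg h1, if_neg h2, if_pos h3]
            exact hp
          · simpa [h1, h2, h3] using hyD i
    let T : Fin n → A := fun i => if i = k0 then p else if i ∈ K then X' i else q i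
    have hT : ∀ i, D (T i) := by
      intro i
      by_cases h1 : i = k0
      · simpa [T, h1] using hp
      · by_cases h2 : i ∈ K
        · simpa [T, h1, h2] using hX' i
        · simpa [T, h1, h2] using hq i
    choose x hxD hxp hxT using fun i => hcom _ (hT i)
    have hb : ∀ i, ∃ b, D b ∧ R (a' i) b := fun i => by
      obtain ⟨w, h1, _, h3⟩ := hcom _ (ha' i)
      exact ⟨w, h1, hs _ _ h3⟩
    choose b hbD hbR using hb
    refine ⟨fun i => if i = k0 then f x else X' i, fun i => if i = k0 then p else b i, ?_, ?_, ?_⟩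
    · intro i
      by_cases h1 : i = k0
      · simpa [h1] using hD _ hxD
      · simpa [h1] using hX' i
    · intro i
      by_cases h1 : i = k0
      · simpa [h1] using hp
      · simpa [h1] using hbD i
    · intro k hk
      by_cases hkk : k = k0
      · subst hkk
        simp only [if_true]
        apply hc
        intro i
        by_cases h1 : i = k
        · have := hxT i
          simpa [T, h1] using this
        · by_cases h2 : i ∈ K
          · have := hxT i
            simpa [T, h1, h2] using this
          · have := hxT i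
            simpa [T, h1, h2] using this
      · have hkK : k ∈ K := by
          rcases Finset.mem_insert.1 hk with h | h
          · exact absurd h hkk
          · exact h
        simp only [hkk, if_false]
        apply hc
        intro i
        by_cases h1 : i = k
        · simpa [h1] using hbR k
        · by_cases h2 : i ∈ K
          · have h3 : i ≠ k0 := fun h => hk0 (h ▸ h2)
            have := hfix i h2
            simpa [h1, h2, h3, X'] using this
          · by_cases h3 : i = k0
            · subst h3
              have := hc (fun _ => p) x hxp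
              rw [hid] at this
              simpa [h1, h2] using this
            · simpa [h1, h2, h3] using hyR i

theorem exists_fix {R : A → A → Prop} (hs : ∀ x y, R x y → R y x) {f : (Fin n → A) → A}
    (hid : ∀ a, f (fun _ => a) = a)
    (hc : ∀ x y : Fin n → A, (∀ i, R (x i) (y i)) → R (f x) (f y))
    (D : A → Prop) (hD : ∀ x, (∀ i, D (x i)) → D (f x)) (p : A) (hp : D p)
    (hcom : ∀ v, D v → ∃ w, D w ∧ R p w ∧ R w v) :
    ∃ g w : Fin n → A, (∀ i, D (g i)) ∧ (∀ i, D (w i)) ∧ ∀ k, R (g k) (Psi f g w k) := by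
  classical
  obtain ⟨X, a, hX, ha, h⟩ := exists_fix_aux hs hid hc D hD p hp hcom Finset.univ
    (fun _ => p) (fun _ => hp)
  refine ⟨X, a, hX, ha, fun k => ?_⟩
  have := h k (Finset.mem_univ k)
  have e : (fun i => if i = k then a k else if i ∈ (Finset.univ : Finset (Fin n)) then X i
      else (fun _ : Fin n => p) i) = Function.update X k (a k) := by
    funext i
    by_cases h1 : i = k
    · subst h1; simp
    · simp [h1]
  rw [e] at this
  exact this

/-- Move the parameter of a self-dominated vector along a walk. -/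
theorem move_fix {R : A → A → Prop} {f : (Fin n → A) → A}
    (hc : ∀ x y : Fin n → A, (∀ i, R (x i) (y i)) → R (f x) (f y))
    {Q : A → Prop} (hQ : ∀ x, (∀ i, Q (x i)) → Q (f x))
    (w : ℕ → Fin n → A) (m : ℕ) (hw : ∀ t, t < m → ∀ i, R (w t i) (w (t + 1) i))
    (hwQ : ∀ t, t ≤ m → ∀ i, Q (w t i))
    (g : Fin n → A) (hg : ∀ i, Q (g i)) (hfix : ∀ k, R (g k) (Psi f g (w 0) k)) :
    ∀ t, t ≤ m → ∃ e : Fin n → A, (∀ i, Q (e i)) ∧ ∀ k, R (e k) (Psi f e (w t) k) := by
  intro t
  induction t with
  | zero => intro _; exact ⟨g, hg, hfix⟩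
  | succ t ih =>
    intro ht
    obtain ⟨e, he, hfe⟩ := ih (by omega)
    refine ⟨Psi f e (w t), ?_, ?_⟩
    · exact Psi_mem hQ he (hwQ t (by omega))
    · intro k
      exact Psi_compat hc hfe (hw t (by omega)) k

/-- The parameter vectors: `V U z c j t` is `U (j - t)` when `t ≤ j`, and alternates between the
constants `z` and `c` otherwise. -/
def V (U : ℕ → Fin n → A) (z c : A) (j t : ℕ) : Fin n → A :=
  if t ≤ j then U (j - t) else if Even (t - j) then fun _ => z else fun _ => c

/-- The iterated vectors. -/
def Y (f : (Fin n → A) → A) (y0 : ℕ → Fin n → A) (U : ℕ → Fin n → A) (z c : A) :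
    ℕ → ℕ → Fin n → A
  | 0, t => y0 t
  | (j + 1), t => Psi f (Y f y0 U z c j t) (V U z c j t)

theorem Y_congr {f : (Fin n → A) → A} {y0 : ℕ → Fin n → A} {U U' : ℕ → Fin n → A} {z c : A}
    {t : ℕ} : ∀ j : ℕ, (∀ k, k + t < j → U k = U' k) →
      Y f y0 U z c j t = Y f y0 U' z c j t := by
  intro j
  induction j with
  | zero => intro _; rfl
  | succ j ih =>
    intro h
    have h1 := ih (fun k hk => h k (by omega))
    have h2 : V U z c j t = V U' z c j t := by
      unfold V
      by_cases hj : t ≤ j
      · rw [if_pos hj, if_pos hj, h (j - t) (by omega)]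
      · rw [if_neg hj, if_neg hj]
    change Psi f (Y f y0 U z c j t) (V U z c j t) = Psi f (Y f y0 U' z c j t) (V U' z c j t)
    rw [h1, h2]

theorem V_adj {R : A → A → Prop} (hs : ∀ x y, R x y → R y x) {U : ℕ → Fin n → A} {z c : A}
    (hU0 : U 0 = fun _ => z) (hzc : R z c) {j t : ℕ}
    (hU : ∀ k, k + t + 1 = j → ∀ i, R (U k i) (U (k + 1) i)) (i : Fin n) :
    R (V U z c j t i) (V U z c j (t + 1) i) := by
  unfold V
  by_cases h1 : t + 1 ≤ j
  · rw [if_pos (by omega : t ≤ j), if_pos h1]
    have := hU (j - (t + 1)) (by omega) i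
    rw [show j - (t + 1) + 1 = j - t by omega] at this
    exact hs _ _ this
  · by_cases h2 : t ≤ j
    · have h3 : t = j := by omega
      subst h3
      rw [if_pos le_rfl, if_neg h1, Nat.sub_self, hU0, show t + 1 - t = 1 by omega,
        if_neg (by decide)]
      exact hzc
    · rw [if_neg h2, if_neg h1]
      by_cases h3 : Even (t - j)
      · rw [if_pos h3, if_neg]
        · exact hzc
        · rw [show t + 1 - j = (t - j) + 1 by omega, Nat.not_even_iff_odd]
          exact h3.add_one
      · rw [if_neg h3, if_pos]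
        · exact hs _ _ hzc
        · rw [show t + 1 - j = (t - j) + 1 by omega]
          exact (Nat.not_even_iff_odd.1 h3).add_one

/-- Adjacency of consecutive columns. -/
theorem Y_adj {R : A → A → Prop} (hs : ∀ x y, R x y → R y x) {f : (Fin n → A) → A}
    (hc : ∀ x y : Fin n → A, (∀ i, R (x i) (y i)) → R (f x) (f y))
    {y0 : ℕ → Fin n → A} {U : ℕ → Fin n → A} {z c : A}
    (hU0 : U 0 = fun _ => z) (hzc : R z c) {t : ℕ}
    (hy0 : ∀ i, R (y0 t i) (y0 (t + 1) i)) :
    ∀ j, (∀ k, k + t + 1 < j → ∀ i, R (U k i) (U (k + 1) i)) → ∀ i,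
      R (Y f y0 U z c j t i) (Y f y0 U z c j (t + 1) i) := by
  intro j
  induction j with
  | zero => intro _ i; exact hy0 i
  | succ j ih =>
    intro hU i
    exact Psi_compat hc (ih (fun k hk => hU k (by omega)))
      (V_adj hs hU0 hzc (fun k hk => hU k (by omega))) i

/-- The last column stays in the neighbourhood of `z`. -/
theorem Y_last {R : A → A → Prop} {f : (Fin n → A) → A}
    (hid : ∀ a, f (fun _ => a) = a)
    (hc : ∀ x y : Fin n → A, (∀ i, R (x i) (y i)) → R (f x) (f y))
    {z : A} (habs : ∀ (j : Fin n) (b : Fin n → A), (∀ i, R z (b i)) →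
      R z (f (Function.update b j z)))
    {y0 : ℕ → Fin n → A} {U : ℕ → Fin n → A} {c : A}
    (hU0 : U 0 = fun _ => z) (hzc : R z c) {t : ℕ} (hy0 : ∀ i, R z (y0 t i)) :
    ∀ j, j ≤ t + 1 → ∀ i, R z (Y f y0 U z c j t i) := by
  intro j
  induction j with
  | zero => intro _ i; exact hy0 i
  | succ j ih =>
    intro hj i
    have h1 := ih (by omega)
    have h2 : V U z c j t = (fun _ => z) ∨ V U z c j t = (fun _ => c) := by
      unfold V
      by_cases h3 : t ≤ j
      · have : j = t := by omega
        subst this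
        rw [if_pos le_rfl, Nat.sub_self, hU0]
        exact Or.inl rfl
      · rw [if_neg h3]
        by_cases h4 : Even (t - j)
        · rw [if_pos h4]; exact Or.inl rfl
        · rw [if_neg h4]; exact Or.inr rfl
    change R z (Psi f (Y f y0 U z c j t) (V U z c j t) i)
    rcases h2 with h2 | h2
    · rw [h2]
      exact habs i _ h1
    · rw [h2]
      have h3 : ∀ k, R z (Function.update (Y f y0 U z c j t) i c k) := by
        intro k
        by_cases hk : k = i
        · subst hk; simpa using hzc
        · simpa [Function.update_of_ne hk] using h1 k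
      have := hc (fun _ => z) _ h3
      rw [hid] at this
      exact this

/-- Construction of the parameter sequence. -/
theorem exists_U {R : A → A → Prop} (hs : ∀ x y, R x y → R y x) {f : (Fin n → A) → A}
    (hid : ∀ a, f (fun _ => a) = a)
    (hc : ∀ x y : Fin n → A, (∀ i, R (x i) (y i)) → R (f x) (f y))
    {z : A} (habs : ∀ (j : Fin n) (b : Fin n → A), (∀ i, R z (b i)) →
      R z (f (Function.update b j z)))
    {y0 : ℕ → Fin n → A} {c : A} (hzc : R z c) {d : ℕ} (hd : 1 ≤ d)
    (hy0 : ∀ t, t + 1 < d → ∀ i, R (y0 t i) (y0 (t + 1) i))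
    (hylast : ∀ i, R z (y0 (d - 1) i)) :
    ∀ s, s ≤ d → ∃ U : ℕ → Fin n → A, U 0 = (fun _ => z) ∧
      (∀ k, k < s → ∀ i, R (U k i) (U (k + 1) i)) ∧
      (∀ k, 1 ≤ k → k ≤ s → U k = Y f y0 U z c d (d - k)) := by
  intro s
  induction s with
  | zero =>
    intro _
    exact ⟨fun _ _ => z, rfl, fun k hk => absurd hk (Nat.not_lt_zero k),
      fun k h1 h2 => by omega⟩
  | succ s ih =>
    intro hsd
    obtain ⟨U, hU0, hUadj, hUY⟩ := ih (by omega)
    set U' : ℕ → Fin n → A := Function.update U (s + 1) (Y f y0 U z c d (d - (s + 1))) with hU'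
    have hU'eq : ∀ k, k ≤ s → U' k = U k := by
      intro k hk
      rw [hU', Function.update_of_ne (by omega)]
    have hU's : U' (s + 1) = Y f y0 U z c d (d - (s + 1)) := by
      rw [hU', Function.update_self]
    have hYeq : ∀ t, d - (s + 1) ≤ t → Y f y0 U z c d t = Y f y0 U' z c d t := by
      intro t ht
      apply Y_congr
      intro k hk
      rw [hU'eq k (by omega)]
    have hU'0 : U' 0 = fun _ => z := by rw [hU'eq 0 (by omega), hU0]
    refine ⟨U', hU'0, ?_, ?_⟩
    · intro k hk i
      by_cases h1 : k < s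
      · rw [hU'eq k (by omega), hU'eq (k + 1) (by omega)]
        exact hUadj k h1 i
      · have h2 : k = s := by omega
        subst h2
        rw [hU's, hU'eq k le_rfl]
        by_cases h3 : k = 0
        · subst h3
          rw [hU0]
          exact Y_last hid hc habs hU0 hzc (by simpa using hylast) d (by omega) i
        · rw [hUY k (by omega) le_rfl]
          have := Y_adj hs hc (f := f) (y0 := y0) (U := U) (z := z) (c := c) hU0 hzc
            (t := d - (k + 1)) (hy0 _ (by omega)) d
            (fun k' hk' => hUadj k' (by omega)) i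
          rw [show d - (k + 1) + 1 = d - k by omega] at this
          exact hs _ _ this
    · intro k h1 h2
      by_cases h3 : k ≤ s
      · rw [hU'eq k h3, hUY k h1 h3]
        exact hYeq _ (by omega)
      · have h4 : k = s + 1 := by omega
        subst h4
        rw [hU's]
        exact hYeq _ (by omega)

/-- A vector self-dominated at parameter `z`, all of whose entries have walks of one length `d` to
`z`, yields a loop. -/
theorem loop_of_fix {R : A → A → Prop} (hs : ∀ x y, R x y → R y x) {f : (Fin n → A) → A}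
    (hid : ∀ a, f (fun _ => a) = a)
    (hc : ∀ x y : Fin n → A, (∀ i, R (x i) (y i)) → R (f x) (f y))
    {z : A} (habs : ∀ (j : Fin n) (b : Fin n → A), (∀ i, R z (b i)) →
      R z (f (Function.update b j z)))
    {c : A} (hzc : R z c) {d : ℕ} (hd : 1 ≤ d) (e : Fin n → A)
    (he : ∀ i, W R d (e i) z) (hfix : ∀ k, R (e k) (Psi f e (fun _ => z) k)) :
    ∃ x, R x x ∧ ∃ m, W R m z x := by
  choose p p0 pd hp using he
  have hy0 : ∀ t, t + 1 < d → ∀ i, R (p i t) (p i (t + 1)) := fun t ht i => hp i t (by omega)
  have hylast : ∀ i, R z (p i (d - 1)) := by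
    intro i
    have := hp i (d - 1) (by omega)
    rw [show d - 1 + 1 = d by omega, pd] at this
    exact hs _ _ this
  obtain ⟨U, hU0, hUadj, hUY⟩ := exists_U hs hid hc habs (y0 := fun t i => p i t) hzc hd
    hy0 hylast d le_rfl
  set y0 : ℕ → Fin n → A := fun t i => p i t with hy0def
  have hVj : ∀ j, V U z c j 0 = U j := by
    intro j
    unfold V
    rw [if_pos (Nat.zero_le j), Nat.sub_zero]
  have hYsucc : ∀ j, Y f y0 U z c (j + 1) 0 = Psi f (Y f y0 U z c j 0) (U j) := by
    intro j
    change Psi f (Y f y0 U z c j 0) (V U z c j 0) = _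
    rw [hVj]
  have hstep : ∀ j, j < d → ∀ i, R (Y f y0 U z c j 0 i) (Y f y0 U z c (j + 1) 0 i) := by
    intro j
    induction j with
    | zero =>
      intro _ i
      rw [hYsucc, hU0]
      have h0 : Y f y0 U z c 0 0 = e := by
        funext i
        exact p0 i
      rw [h0]
      exact hfix i
    | succ j ih =>
      intro hj i
      have h1 := ih (by omega)
      rw [hYsucc (j + 1)]
      rw [hYsucc j] at h1 ⊢
      exact Psi_compat hc h1 (hUadj j (by omega)) i
  obtain ⟨m, rfl⟩ : ∃ m, d = m + 1 := ⟨d - 1, by omega⟩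
  have hg := hstep m (by omega)
  rw [hYsucc m] at hg
  have hUd : U (m + 1) = Psi f (Y f y0 U z c m 0) (U m) := by
    rw [hUY (m + 1) (by omega) le_rfl, Nat.sub_self, hYsucc]
  have hw := hUadj m (by omega)
  rw [hUd] at hw
  refine ⟨_, loop_of hid hc hg hw, m + 1, ?_⟩
  rw [← hUd]
  have := W_compat hc (f := f) (k := m + 1) (x := fun _ => z) (y := U (m + 1)) (by
    intro i
    refine ⟨fun t => U t i, ?_, rfl, fun t ht => hUadj t (by omega) i⟩
    change U 0 i = z
    rw [hU0])
  rwa [hid] at this

/-- The subset generated by three elements. -/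
inductive Gen (f : (Fin n → A) → A) (a b c : A) : A → Prop
  | fst : Gen f a b c a
  | snd : Gen f a b c b
  | trd : Gen f a b c c
  | app (x : Fin n → A) (h : ∀ i, Gen f a b c (x i)) : Gen f a b c (f x)

/-- The case of a triangle connected to `z`. -/
theorem triangle_case {R : A → A → Prop} (hs : ∀ x y, R x y → R y x) {f : (Fin n → A) → A}
    (hid : ∀ a, f (fun _ => a) = a)
    (hc : ∀ x y : Fin n → A, (∀ i, R (x i) (y i)) → R (f x) (f y))
    {z : A} (habs : ∀ (j : Fin n) (b : Fin n → A), (∀ i, R z (b i)) →
      R z (f (Function.update b j z)))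
    {c0 : A} (hzc : R z c0) {a b c : A} (hab : R a b) (hbc : R b c) (hac : R a c) {m0 : ℕ}
    (hm0 : W R m0 a z) :
    ∃ x, R x x ∧ ∃ m, W R m z x := by
  classical
  -- the predicate of having walks of all large lengths to `z`
  let Q : A → Prop := fun x => ∀ᶠ k in atTop, W R k x z
  have hQf : ∀ x : Fin n → A, (∀ i, Q (x i)) → Q (f x) := by
    intro x hx
    have h1 : ∀ᶠ k in atTop, ∀ i, W R k (x i) z := eventually_all.2 hx
    refine h1.mono (fun k hk => ?_)
    have := W_compat hc (y := fun _ => z) hk
    rwa [hid] at this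
  have hQn : ∀ x y, R x y → Q y → Q x := by
    intro x y hxy hy
    obtain ⟨N, hN⟩ := eventually_atTop.1 hy
    refine eventually_atTop.2 ⟨N + 1, fun k hk => ?_⟩
    have := W_trans (W_one hxy) (hN (k - 1) (by omega))
    rwa [show 1 + (k - 1) = k by omega] at this
  have hQa : Q a := by
    have h3 : W R 3 a a := W_trans (W_trans (W_one hab) (W_one hbc)) (W_one (hs _ _ hac))
    obtain ⟨N, hN⟩ := eventually_atTop.1 (W_eventually hs (by decide) hab h3)
    refine eventually_atTop.2 ⟨N + m0, fun k hk => ?_⟩
    have := W_trans (hN (k - m0) (by omega)) hm0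
    rwa [show k - m0 + m0 = k by omega] at this
  have hQD : ∀ x, Gen f a b c x → Q x := by
    intro x hx
    induction hx with
    | fst => exact hQa
    | snd => exact hQn _ _ (hs _ _ hab) hQa
    | trd => exact hQn _ _ (hs _ _ hac) hQa
    | app x _ ih => exact hQf x ih
  obtain ⟨g, w, hg, hw, hfix⟩ := exists_fix hs hid hc (Gen f a b c) (fun x h => Gen.app x h) a
    Gen.fst (by
      intro v hv
      induction hv with
      | fst => exact ⟨b, Gen.snd, hab, hs _ _ hab⟩
      | snd => exact ⟨c, Gen.trd, hac, hs _ _ hbc⟩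
      | trd => exact ⟨b, Gen.snd, hab, hbc⟩
      | app x _ ih =>
        choose y hy1 hy2 hy3 using ih
        refine ⟨f y, Gen.app y hy1, ?_, hc _ _ hy3⟩
        have := hc (fun _ => a) y hy2
        rwa [hid] at this)
  -- walk the parameter to `z`
  have hw' : ∀ᶠ k in atTop, ∀ i, W R k (w i) z := eventually_all.2 (fun i => hQD _ (hw i))
  obtain ⟨N, hN⟩ := eventually_atTop.1 hw'
  choose p p0 pd hp using hN N le_rfl
  have hpQ : ∀ t, t ≤ N → ∀ i, Q (p i t) := by
    intro t
    induction t with
    | zero =>
      intro _ i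
      rw [p0]
      exact hQD _ (hw i)
    | succ t ih =>
      intro ht i
      exact hQn _ _ (hs _ _ (hp i t (by omega))) (ih (by omega) i)
  obtain ⟨e, heQ, hefix⟩ := move_fix hc hQf (fun t i => p i t) N
    (fun t ht i => hp i t ht) hpQ g (fun i => hQD _ (hg i)) (by
      have h0 : (fun i => p i 0) = w := funext p0
      rw [h0]
      exact hfix) N le_rfl
  have hpN : (fun i => p i N) = fun _ => z := funext pd
  rw [hpN] at hefix
  have he' : ∀ᶠ k in atTop, ∀ i, W R k (e i) z := eventually_all.2 heQ
  obtain ⟨M, hM⟩ := eventually_atTop.1 he'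
  exact loop_of_fix hs hid hc habs hzc (d := M + 1) (by omega) e (hM (M + 1) (by omega)) hefix

/-- The local loop lemma: a closed walk of odd length through `z`, whose neighbourhood absorbs
`z`, forces a loop. -/
theorem local_loop {R : A → A → Prop} (hs : ∀ x y, R x y → R y x) {f : (Fin n → A) → A}
    (hid : ∀ a, f (fun _ => a) = a)
    (hc : ∀ x y : Fin n → A, (∀ i, R (x i) (y i)) → R (f x) (f y))
    {z : A} (habs : ∀ (j : Fin n) (b : Fin n → A), (∀ i, R z (b i)) →
      R z (f (Function.update b j z)))
    {l : ℕ} (hl : Odd l) (hz : W R l z z) :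
    ∃ x, R x x := by
  classical
  -- a neighbour of `z`
  obtain ⟨c0, hzc⟩ : ∃ c0, R z c0 := by
    obtain ⟨p, p0, _, hp⟩ := hz
    refine ⟨p 1, ?_⟩
    have := hp 0 (by rcases hl with ⟨k, hk⟩; omega)
    rwa [p0] at this
  -- minimal odd length of a closed walk connected to `z`
  let P : ℕ → Prop := fun k => Odd k ∧ ∃ x, (∃ m, W R m z x) ∧ W R k x x
  have hP : ∃ k, P k := ⟨l, hl, z, ⟨0, W_zero R z⟩, hz⟩
  obtain ⟨hodd, x, ⟨m, hm⟩, hx⟩ := Nat.find_spec hP
  have hmin : ∀ k, k < Nat.find hP → ¬ P k := fun k hk => Nat.find_min hP hk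
  set L := Nat.find hP with hL
  by_cases h1 : L = 1
  · rw [h1] at hx
    exact ⟨x, W_one_iff.1 hx⟩
  · exfalso
    obtain ⟨r, hr⟩ := hodd
    have hr1 : 1 ≤ r := by omega
    obtain ⟨s, rfl⟩ : ∃ s, r = s + 1 := ⟨r - 1, by omega⟩
    -- `S` : walks of length `L - 2 = 2 * s + 1`
    have hLs : L = 2 * s + 1 + 2 := by omega
    let S : A → A → Prop := W R (2 * s + 1)
    have hSs : ∀ x y, S x y → S y x := fun x y h => W_symm hs h
    have hSc : ∀ x y : Fin n → A, (∀ i, S (x i) (y i)) → S (f x) (f y) :=
      fun x y h => W_compat hc h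
    have hRS : ∀ x y, R x y → S x y := by
      intro x y h
      have := W_add_even hs h (W_one h) s
      rwa [show 1 + 2 * s = 2 * s + 1 by ring] at this
    have hSabs : ∀ (j : Fin n) (b : Fin n → A), (∀ i, S z (b i)) →
        S z (f (Function.update b j z)) := by
      intro j b hb
      choose p p0 pk hp using hb
      -- the walk at coordinate `j`
      have hzz : W R (2 * s) z z := by
        have := W_add_even hs hzc (W_zero R z) s
        rwa [show 0 + 2 * s = 2 * s by ring] at this
      obtain ⟨q, q0, qk, hq⟩ := hzz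
      have hfirst : R z (f (Function.update (fun i => p i 1) j z)) := by
        apply habs
        intro i
        have := hp i 0 (by omega)
        rwa [p0] at this
      have hrest : W R (2 * s) (f (Function.update (fun i => p i 1) j z))
          (f (Function.update b j z)) := by
        apply W_compat hc
        intro i
        by_cases h : i = j
        · subst h
          simp only [Function.update_self]
          exact ⟨q, q0, qk, hq⟩
        · simp only [Function.update_of_ne h]
          refine ⟨fun t => p i (t + 1), rfl, pk i, fun t ht => hp i (t + 1) (by omega)⟩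
      have := W_trans (W_one hfirst) hrest
      rwa [show 1 + 2 * s = 2 * s + 1 by ring] at this
    -- the triangle
    rw [hLs] at hx
    obtain ⟨p, p0, pk, hp⟩ := hx
    have hab : S (p 0) (p 1) := hRS _ _ (hp 0 (by omega))
    have hbc : S (p 1) (p 2) := hRS _ _ (hp 1 (by omega))
    have hca : S (p 2) (p 0) := by
      refine ⟨fun t => p (t + 2), rfl, ?_, fun t ht => hp (t + 2) (by omega)⟩
      change p (2 * s + 1 + 2) = p 0
      rw [pk, p0]
    have hmS : W S m (p 0) z := by
      rw [p0]
      obtain ⟨q, q0, qk, hq⟩ := W_symm hs hm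
      exact ⟨q, q0, qk, fun t ht => hRS _ _ (hq t ht)⟩
    obtain ⟨y, hy, m', hm'⟩ := triangle_case hSs hid hSc hSabs (hRS _ _ hzc) hab hbc
      (hSs _ _ hca) hmS
    have hconn : ∀ k : ℕ, ∀ y, W S k z y → ∃ m, W R m z y := by
      intro k
      induction k with
      | zero =>
        intro y hy
        obtain ⟨q, q0, qk, _⟩ := hy
        exact ⟨0, fun _ => z, rfl, by rw [← qk, q0], fun t ht => absurd ht (Nat.not_lt_zero t)⟩
      | succ k ih =>
        intro y hy
        obtain ⟨q, q0, qk, hq⟩ := hy
        obtain ⟨m1, hm1⟩ := ih (q k) ⟨q, q0, rfl, fun t ht => hq t (by omega)⟩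
        have h2 := hq k (by omega)
        rw [qk] at h2
        exact ⟨m1 + (2 * s + 1), W_trans hm1 h2⟩
    exact hmin (2 * s + 1) (by omega) ⟨⟨s, rfl⟩, y, hconn m' y hm', hy⟩

end Pool.Agent.P8H60.LocalLoop
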